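import Mathlib
import Pool.Prelude.Def_F_7546141c

set_option autoImplicit false

open Nbb67e70a

namespace Pool.Agent.Lib.MP_62a313_nt

/-- harmonic sum as a rational -/
def H (n : ℕ) : ℚ := ∑ k ∈ Finset.Icc 1 n, (1 : ℚ) / k

theorem L_pos (n : ℕ) : 0 < L n := by
  unfold L
  rw [Nat.pos_iff_ne_zero]
  intro h
  rw [Finset.lcm_eq_zero_iff] at h
  simp at h

theorem dvd_L {n k : ℕ} (h1 : 1 ≤ k) (h2 : k ≤ n) : k ∣ L n := by
  unfold L
  exact Finset.dvd_lcm (f := fun x ↦ x) (Finset.mem_Icc.mpr ⟨h1, h2⟩)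

theorem a_eq (n : ℕ) : (a n : ℚ) = L n * H n := by
  unfold a H
  rw [Nat.cast_sum, Finset.mul_sum]
  apply Finset.sum_congr rfl
  intro k hk
  rw [Finset.mem_Icc] at hk
  rw [Nat.cast_div (dvd_L hk.1 hk.2) (by have := hk.1; positivity)]
  ring

theorem norm_term {p : ℕ} [hp : Fact p.Prime] {j t : ℕ} (h : ¬ p ^ j ∣ t) :
    padicNorm p ((p : ℚ) ^ j / t) < 1 := by
  rw [padicNorm.div]
  have hpp : (1 : ℚ) < p := by exact_mod_cast hp.out.one_lt
  have h1 : padicNorm p ((p : ℚ) ^ j) = (p : ℚ) ^ (-(j : ℤ)) := by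
    have : padicNorm p ((p : ℚ) ^ j) = (padicNorm p (p : ℚ)) ^ j := by
      induction j with
      | zero => simp
      | succ i ih =>
        have hi : ¬ p ^ (i) ∣ t ∨ p ^ i ∣ t := by tauto
        rw [pow_succ, padicNorm.mul]
        have : padicNorm p ((p : ℚ) ^ i) = (padicNorm p (p : ℚ)) ^ i := by
          clear ih hi h
          induction i with
          | zero => simp
          | succ i ih => rw [pow_succ, padicNorm.mul, ih, pow_succ]
        rw [this, pow_succ]
    rw [this, padicNorm.padicNorm_p_of_prime, zpow_neg, zpow_natCast, inv_pow]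
  have h2 : (p : ℚ) ^ (-(j : ℤ)) < padicNorm p (t : ℚ) := by
    by_contra hcon
    push Not at hcon
    have h3 := (padicNorm.dvd_iff_norm_le (p := p) (n := j) (z := (t : ℤ))).mpr (by exact_mod_cast hcon)
    apply h
    exact_mod_cast h3
  rw [h1]
  have h4 : 0 < padicNorm p (t : ℚ) := lt_trans (by positivity) h2
  rw [div_lt_one h4]
  exact h2

theorem norm_sub {p : ℕ} [hp : Fact p.Prime] (j n : ℕ) :
    padicNorm p ((p : ℚ) ^ j * H n - H (n / p ^ j)) < 1 := by
  have hpj : 0 < p ^ j := pow_pos hp.out.pos j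
  have key : (p : ℚ) ^ j * H n - H (n / p ^ j)
      = ∑ t ∈ (Finset.Icc 1 n).filter (fun t ↦ ¬ p ^ j ∣ t), (p : ℚ) ^ j / t := by
    have h1 : (p : ℚ) ^ j * H n = ∑ t ∈ Finset.Icc 1 n, (p : ℚ) ^ j / t := by
      unfold H
      rw [Finset.mul_sum]
      apply Finset.sum_congr rfl
      intro k _
      ring
    have h2 : H (n / p ^ j) = ∑ t ∈ (Finset.Icc 1 n).filter (fun t ↦ p ^ j ∣ t), (p : ℚ) ^ j / t := by
      unfold H
      apply Finset.sum_bij (fun s _ ↦ p ^ j * s)
      · intro s hs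
        rw [Finset.mem_Icc] at hs
        rw [Finset.mem_filter, Finset.mem_Icc]
        refine ⟨⟨?_, ?_⟩, dvd_mul_right _ _⟩
        · exact Nat.mul_pos hpj hs.1
        · calc p ^ j * s ≤ p ^ j * (n / p ^ j) := Nat.mul_le_mul_left _ hs.2
            _ ≤ n := Nat.mul_div_le n (p ^ j)
      · intro s _ s' _ h
        exact Nat.eq_of_mul_eq_mul_left hpj h
      · intro t ht
        rw [Finset.mem_filter, Finset.mem_Icc] at ht
        obtain ⟨⟨ht1, ht2⟩, s, hs⟩ := ht
        refine ⟨s, ?_, hs.symm⟩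
        rw [Finset.mem_Icc]
        constructor
        · rcases Nat.eq_zero_or_pos s with h0 | h0
          · subst h0; omega
          · exact h0
        · rw [Nat.le_div_iff_mul_le hpj, mul_comm, ← hs]; exact ht2
      · intro s hs
        have hpj' : (p : ℚ) ^ j ≠ 0 := by exact_mod_cast hpj.ne'
        rw [Finset.mem_Icc] at hs
        have hs' : (s : ℚ) ≠ 0 := by have := hs.1; positivity
        push_cast
        field_simp
    rw [h1, h2, ← Finset.sum_filter_add_sum_filter_not (Finset.Icc 1 n) (fun t ↦ p ^ j ∣ t)]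
    ring
  rw [key]
  apply padicNorm.sum_lt' _ one_pos
  intro t ht
  rw [Finset.mem_filter] at ht
  exact norm_term ht.2

/-- If `m = ⌊n / p ^ j⌋ ≥ 1` with `j ≥ 1` and `p` divides the reduced numerator of the harmonic number
`H m`, then `p` divides both `a n` and `L n`. -/
theorem prime_dvd {p : ℕ} [hp : Fact p.Prime] {j n m : ℕ} (hj : 1 ≤ j) (hm : n / p ^ j = m)
    (hm1 : 1 ≤ m) (hH : padicNorm p (H m) < 1) : p ∣ Nat.gcd (a n) (L n) := by
  have hpj : 0 < p ^ j := pow_pos hp.out.pos j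
  have hle : p ^ j ≤ n := by
    by_contra hcon
    push Not at hcon
    rw [Nat.div_eq_of_lt hcon] at hm
    omega
  have hdvd : p ^ j ∣ L n := dvd_L hpj hle
  apply Nat.dvd_gcd
  · obtain ⟨u, hu⟩ := hdvd
    rw [← padicNorm.nat_lt_one_iff, a_eq, hu]
    have h1 : ((p ^ j * u : ℕ) : ℚ) * H n = (u : ℚ) * (((p : ℚ) ^ j * H n - H (n / p ^ j)) + H m) := by
      rw [hm]; push_cast; ring
    rw [h1, padicNorm.mul]
    have h2 : padicNorm p (((p : ℚ) ^ j * H n - H (n / p ^ j)) + H m) < 1 :=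
      lt_of_le_of_lt padicNorm.nonarchimedean (max_lt (norm_sub j n) hH)
    have h3 : padicNorm p (u : ℚ) ≤ 1 := padicNorm.of_nat u
    calc padicNorm p (u : ℚ) * padicNorm p (((p : ℚ) ^ j * H n - H (n / p ^ j)) + H m)
        ≤ 1 * padicNorm p (((p : ℚ) ^ j * H n - H (n / p ^ j)) + H m) :=
          mul_le_mul_of_nonneg_right h3 (padicNorm.nonneg _)
      _ < 1 := by rw [one_mul]; exact h2
  · exact dvd_trans (dvd_pow_self p (by omega)) hdvd

theorem exists_prime {m : ℕ} (hm : 2 ≤ m) : ∃ p : ℕ, p.Prime ∧ padicNorm p (H m) < 1 := by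
  have h1 : 1 < H m := by
    unfold H
    have h2 : ∑ k ∈ Finset.Icc (1 : ℕ) 2, (1 : ℚ) / (k : ℚ) ≤ ∑ k ∈ Finset.Icc 1 m, (1 : ℚ) / k := by
      apply Finset.sum_le_sum_of_subset_of_nonneg
      · intro x hx
        rw [Finset.mem_Icc] at hx ⊢
        omega
      · intro i _ _
        positivity
    have h3 : ∑ k ∈ Finset.Icc (1 : ℕ) 2, (1 : ℚ) / (k : ℚ) = 3 / 2 := by
      rw [show Finset.Icc (1 : ℕ) 2 = {1, 2} from rfl, Finset.sum_pair (by norm_num)]
      norm_num
    rw [h3] at h2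
    linarith
  set q := H m with hq
  have hden : (0 : ℤ) < q.den := by exact_mod_cast q.den_pos
  have hnum : (1 : ℤ) < q.num := by
    have h4 : (q.den : ℚ) < q.num := by
      have h5 : (q.num : ℚ) / q.den = q := Rat.num_div_den q
      rw [← h5] at h1
      rwa [one_lt_div (by exact_mod_cast hden)] at h1
    have h6 : (q.den : ℤ) < q.num := by exact_mod_cast h4
    omega
  have hna : q.num.natAbs ≠ 1 := by omega
  obtain ⟨p, hp, hpd⟩ := Nat.exists_prime_and_dvd hna
  have : Fact p.Prime := ⟨hp⟩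
  refine ⟨p, hp, ?_⟩
  have h7 : (p : ℤ) ∣ q.num := Int.natCast_dvd.mpr hpd
  have h8 : padicNorm p (q.num : ℚ) < 1 := (padicNorm.int_lt_one_iff q.num).mpr h7
  have h9 : padicNorm p (q.den : ℚ) = 1 := by
    rw [padicNorm.nat_eq_one_iff]
    intro hd
    have hc := q.reduced
    have : p ∣ 1 := by
      rw [← hc.gcd_eq_one]
      exact Nat.dvd_gcd hpd hd
    exact hp.one_lt.ne' (Nat.dvd_one.mp this)
  have h10 : q = q.num / q.den := (Rat.num_div_den q).symm
  rw [h10, padicNorm.div, h9, div_one]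
  exact h8

end Pool.Agent.Lib.MP_62a313_nt
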