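import Mathlib

set_option autoImplicit false

namespace Pool.Agent.Lib.MP_62a313_nt

/-- Return times to a neighbourhood of the origin of a rotation of a finite-dimensional torus are syndetic. -/
theorem recurrence (F : Finset ℕ) (c : ℕ → ℝ) {δ : ℝ} (hδ : 0 < δ) :
    ∃ R : ℕ, ∀ n : ℤ, ∃ m : ℤ, n ≤ m ∧ m ≤ n + R ∧
      ∀ p ∈ F, |(m : ℝ) * c p - round ((m : ℝ) * c p)| < δ := by
  let f : ℤ → (F → UnitAddCircle) := fun m p ↦ (((m : ℝ) * c p : ℝ) : UnitAddCircle)
  have hsub : ∀ m n : ℤ, f (m - n) = f m - f n := by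
    intro m n
    funext p
    simp only [f, Pi.sub_apply]
    rw [← AddCircle.coe_sub]
    congr 1
    push_cast
    ring
  have htb : TotallyBounded (Set.range f) :=
    (isCompact_univ.totallyBounded).subset (Set.subset_univ _)
  obtain ⟨t, hts, htf, hcov⟩ := htb.exists_subset (Metric.dist_mem_uniformity hδ)
  have hch : ∀ y : (F → UnitAddCircle), ∃ g : ℤ, y ∈ t → f g = y := by
    intro y
    by_cases hy : y ∈ t
    · obtain ⟨g, hg⟩ := hts hy
      exact ⟨g, fun _ ↦ hg⟩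
    · exact ⟨0, fun h ↦ absurd h hy⟩
  choose g hg using hch
  have hfin : (g '' t).Finite := htf.image g
  obtain ⟨B, hB⟩ := hfin.bddAbove
  obtain ⟨A, hA⟩ := hfin.bddBelow
  refine ⟨(B - A).toNat, ?_⟩
  intro n
  have hmem : f (n + B) ∈ Set.range f := ⟨_, rfl⟩
  have h1 := hcov hmem
  rw [Set.mem_iUnion₂] at h1
  obtain ⟨y, hy, hy2⟩ := h1
  have hy3 : dist (f (n + B)) y < δ := hy2
  refine ⟨n + B - g y, ?_, ?_, ?_⟩
  · have := hB (Set.mem_image_of_mem g hy)
    linarith
  · have h2 := hA (Set.mem_image_of_mem g hy)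
    have h3 := hB (Set.mem_image_of_mem g hy)
    have h4 : ((B - A).toNat : ℤ) = B - A := Int.toNat_of_nonneg (by linarith)
    rw [h4]
    linarith
  · intro p hp
    have h2 : ‖f (n + B - g y)‖ < δ := by
      rw [hsub, hg y hy, ← dist_eq_norm]
      exact hy3
    have h3 : ‖f (n + B - g y) ⟨p, hp⟩‖ < δ := lt_of_le_of_lt (norm_le_pi_norm _ _) h2
    simp only [f] at h3
    rw [UnitAddCircle.norm_eq] at h3
    exact h3

end Pool.Agent.Lib.MP_62a313_nt
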