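import Mathlib
import Pool.Agent.Lib.MP_62a313_nt.Arith
import Pool.Agent.Lib.MP_62a313_nt.Recur

set_option autoImplicit false

open Nbb67e70a

namespace Pool.Agent.Lib.MP_62a313_nt

theorem H_pos {m : ℕ} (hm : 1 ≤ m) : 0 < H m := by
  unfold H
  apply Finset.sum_pos
  · intro i hi
    rw [Finset.mem_Icc] at hi
    have : (0 : ℚ) < i := by exact_mod_cast hi.1
    positivity
  · exact ⟨1, Finset.mem_Icc.mpr ⟨le_rfl, hm⟩⟩

open Classical in
/-- the primes `p` for which some `k = n / p ^ i ≥ 1` has numerator of `H k` divisible by `p`. -/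
noncomputable def D (n : ℕ) : Finset ℕ :=
  ((Finset.Icc 1 n).biUnion (fun k ↦ (H k).num.natAbs.primeFactors)).filter
    (fun p ↦ ∃ i : ℕ, 1 ≤ n / p ^ i ∧ padicNorm p (H (n / p ^ i)) < 1)

theorem num_of_norm {p : ℕ} (hp : p.Prime) {k : ℕ} (hk : 1 ≤ k) (h : padicNorm p (H k) < 1) :
    p ∈ (H k).num.natAbs.primeFactors := by
  have : Fact p.Prime := ⟨hp⟩
  have hne : (H k).num ≠ 0 := Rat.num_ne_zero.mpr (H_pos hk).ne'
  rw [Nat.mem_primeFactors]
  refine ⟨hp, ?_, by rwa [Int.natAbs_ne_zero]⟩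
  rw [← Int.natCast_dvd]
  rw [← padicNorm.int_lt_one_iff]
  have h1 : ((H k).num : ℚ) = H k * ((H k).den : ℚ) := by
    rw [Rat.mul_den_eq_num]
  rw [h1, padicNorm.mul]
  calc padicNorm p (H k) * padicNorm p ((H k).den : ℚ) ≤ padicNorm p (H k) * 1 :=
        mul_le_mul_of_nonneg_left (padicNorm.of_nat _) (padicNorm.nonneg _)
    _ < 1 := by rw [mul_one]; exact h

theorem mem_D {n p : ℕ} : p ∈ D n ↔
    p.Prime ∧ ∃ i : ℕ, 1 ≤ n / p ^ i ∧ padicNorm p (H (n / p ^ i)) < 1 := by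
  classical
  unfold D
  rw [Finset.mem_filter, Finset.mem_biUnion]
  constructor
  · rintro ⟨⟨k, _, hk⟩, h⟩
    exact ⟨(Nat.mem_primeFactors.mp hk).1, h⟩
  · rintro ⟨hp, i, hi1, hi2⟩
    refine ⟨⟨n / p ^ i, ?_, num_of_norm hp hi1 hi2⟩, i, hi1, hi2⟩
    rw [Finset.mem_Icc]
    exact ⟨hi1, Nat.div_le_self _ _⟩

theorem D_mono {n m p i : ℕ} (h : n / p ^ i = m) (hm : p ∈ D m) : p ∈ D n := by
  rw [mem_D] at hm ⊢
  obtain ⟨hp, j, hj1, hj2⟩ := hm
  refine ⟨hp, i + j, ?_⟩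
  have h1 : n / p ^ (i + j) = m / p ^ j := by
    rw [pow_add, ← Nat.div_div_eq_div_mul, h]
  rw [h1]
  exact ⟨hj1, hj2⟩

theorem D_gcd {n m p i : ℕ} (hi : 1 ≤ i) (h : n / p ^ i = m) (hm : p ∈ D m) :
    p ∈ (Nat.gcd (a n) (L n)).primeFactors := by
  rw [mem_D] at hm
  obtain ⟨hp, j, hj1, hj2⟩ := hm
  have : Fact p.Prime := ⟨hp⟩
  have h1 : n / p ^ (i + j) = m / p ^ j := by
    rw [pow_add, ← Nat.div_div_eq_div_mul, h]
  have h2 := prime_dvd (p := p) (j := i + j) (n := n) (m := m / p ^ j) (by omega) h1 hj1 hj2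
  rw [Nat.mem_primeFactors]
  refine ⟨hp, h2, ?_⟩
  have := L_pos n
  exact (Nat.gcd_pos_of_pos_right _ this).ne'

theorem D_zero {n p : ℕ} (hn : 1 ≤ n) (hp : p.Prime) (h : padicNorm p (H n) < 1) : p ∈ D n := by
  rw [mem_D]
  refine ⟨hp, 0, ?_⟩
  rw [pow_zero, Nat.div_one]
  exact ⟨hn, h⟩

/-- The block of `n` on the scale `exp s` is its block on the scale `p ^ i`. -/
theorem transfer {X p n m : ℕ} {s κ η : ℝ} {j : ℤ} (hp : p.Prime) (hκ0 : 0 < κ) (hκ1 : κ ≤ 1 / 2)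
    (hηκ : 2 * κ * (X + 1) ≤ η) (hj : |s - j * Real.log p| < κ) (hs : κ ≤ s) (hmX : m ≤ X)
    (h1 : m * Real.exp s + η * Real.exp s ≤ n) (h2 : (n : ℝ) < (m + 1) * Real.exp s - η * Real.exp s) :
    ∃ i : ℕ, 1 ≤ i ∧ n / p ^ i = m := by
  have hlp : 0 < Real.log p := Real.log_pos (by exact_mod_cast hp.one_lt)
  rw [abs_lt] at hj
  have hjpos : 0 < j := by
    by_contra hcj
    push Not at hcj
    have h1 : (j : ℝ) ≤ 0 := by exact_mod_cast hcj
    have h2 : (j : ℝ) * Real.log p ≤ 0 := mul_nonpos_of_nonpos_of_nonneg h1 hlp.le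
    linarith
  obtain ⟨i, hi⟩ := Int.eq_ofNat_of_zero_le hjpos.le
  have hi1 : 1 ≤ i := by omega
  refine ⟨i, hi1, ?_⟩
  set T : ℝ := Real.exp s with hT
  have hT0 : 0 < T := Real.exp_pos _
  have hppos : (0 : ℝ) < p := by exact_mod_cast hp.pos
  have hpow : ((p ^ i : ℕ) : ℝ) = Real.exp (j * Real.log p) := by
    rw [hi]
    push_cast
    rw [← Real.log_pow, Real.exp_log (by positivity)]
  have hPupp : ((p ^ i : ℕ) : ℝ) ≤ T * (1 + 2 * κ) := by
    rw [hpow]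
    calc Real.exp (j * Real.log p) ≤ Real.exp (s + κ) := Real.exp_le_exp.mpr (by linarith)
      _ = T * Real.exp κ := by rw [Real.exp_add]
      _ ≤ T * (1 + 2 * κ) := by
        apply mul_le_mul_of_nonneg_left _ hT0.le
        have := Real.abs_exp_sub_one_le (x := κ) (by rw [abs_of_pos hκ0]; linarith)
        rw [abs_of_pos hκ0] at this
        have h2 := le_abs_self (Real.exp κ - 1)
        linarith
  have hPlow : T * (1 - κ) ≤ ((p ^ i : ℕ) : ℝ) := by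
    rw [hpow]
    calc T * (1 - κ) ≤ T * Real.exp (-κ) := by
          apply mul_le_mul_of_nonneg_left _ hT0.le
          have := Real.add_one_le_exp (-κ)
          linarith
      _ = Real.exp (s - κ) := by rw [sub_eq_add_neg, Real.exp_add]
      _ ≤ Real.exp (j * Real.log p) := Real.exp_le_exp.mpr (by linarith)
  have hmX' : (m : ℝ) ≤ X := by exact_mod_cast hmX
  have hmκ : (m : ℝ) * (2 * κ) ≤ η := by
    calc (m : ℝ) * (2 * κ) ≤ (X + 1) * (2 * κ) := by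
          apply mul_le_mul_of_nonneg_right (by linarith) (by linarith)
      _ = 2 * κ * (X + 1) := by ring
      _ ≤ η := hηκ
  have hmκ' : ((m : ℝ) + 1) * κ ≤ η := by
    calc ((m : ℝ) + 1) * κ ≤ (X + 1) * (2 * κ) := by
          apply mul_le_mul (by linarith) (by linarith) hκ0.le
          have : (0 : ℝ) ≤ X := Nat.cast_nonneg X
          linarith
      _ = 2 * κ * (X + 1) := by ring
      _ ≤ η := hηκ
  have hlo : (m : ℝ) * ((p ^ i : ℕ) : ℝ) ≤ n := by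
    calc (m : ℝ) * ((p ^ i : ℕ) : ℝ) ≤ m * (T * (1 + 2 * κ)) := by gcongr
      _ = m * T + (m * (2 * κ)) * T := by ring
      _ ≤ m * T + η * T := by gcongr
      _ ≤ n := h1
  have hhi : (n : ℝ) < ((m : ℝ) + 1) * ((p ^ i : ℕ) : ℝ) := by
    calc (n : ℝ) < (m + 1) * T - η * T := h2
      _ ≤ (m + 1) * T - ((m + 1) * κ) * T := by gcongr
      _ = (m + 1) * (T * (1 - κ)) := by ring
      _ ≤ ((m : ℝ) + 1) * ((p ^ i : ℕ) : ℝ) := by gcongr
  apply Nat.div_eq_of_lt_le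
  · exact_mod_cast hlo
  · exact_mod_cast hhi

theorem card_near5 (y r : ℝ) (h0 : 0 ≤ y - r) (hr : 0 ≤ r) :
    ((Finset.Icc ⌈y - r⌉₊ ⌊y + r⌋₊).card : ℝ) ≤ 2 * r + 1 := by
  rw [Nat.card_Icc]
  have h1 : ((⌊y + r⌋₊ : ℕ) : ℝ) ≤ y + r := Nat.floor_le (by linarith)
  have h2 : y - r ≤ (⌈y - r⌉₊ : ℝ) := Nat.le_ceil _
  by_cases h : ⌈y - r⌉₊ ≤ ⌊y + r⌋₊ + 1
  · rw [Nat.cast_sub h]
    push_cast
    linarith
  · push Not at h
    rw [Nat.sub_eq_zero_of_le h.le]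
    push_cast
    linarith

theorem card_block (y T : ℝ) (h0 : 0 ≤ y) (hT : 0 ≤ T) :
    ((Finset.Icc ⌈y⌉₊ ⌊y + T⌋₊).card : ℝ) ≤ T + 1 := by
  rw [Nat.card_Icc]
  have h1 : ((⌊y + T⌋₊ : ℕ) : ℝ) ≤ y + T := Nat.floor_le (by linarith)
  have h2 : y ≤ (⌈y⌉₊ : ℝ) := Nat.le_ceil _
  by_cases h : ⌈y⌉₊ ≤ ⌊y + T⌋₊ + 1
  · rw [Nat.cast_sub h]
    push_cast
    linarith
  · push Not at h
    rw [Nat.sub_eq_zero_of_le h.le]
    push_cast
    linarith

open Classical in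
/-- Number of `n ≤ X T` which do not lie well inside a good block. -/
theorem count (X : ℕ) (B : Finset ℕ) {T η : ℝ} (hT : 1 ≤ T) (hη0 : 0 < η) (hη1 : η ≤ 1 / 2) :
    (((Finset.Icc 1 ⌊X * T⌋₊).filter (fun n : ℕ ↦ ¬ ∃ m : ℕ, 1 ≤ m ∧ m ≤ X ∧ m ∉ B ∧
      m * T + η * T ≤ n ∧ (n : ℝ) < (m + 1) * T - η * T)).card : ℝ) ≤
      T + B.card * (T + 1) + X * (2 * (η * T) + 1) := by
  have hT0 : 0 < T := by linarith
  have hXT0 : (0 : ℝ) ≤ X * T := by positivity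
  have hcover : (Finset.Icc 1 ⌊X * T⌋₊).filter (fun n : ℕ ↦ ¬ ∃ m : ℕ, 1 ≤ m ∧ m ≤ X ∧ m ∉ B ∧
      m * T + η * T ≤ n ∧ (n : ℝ) < (m + 1) * T - η * T) ⊆
      (Finset.Icc 1 ⌊T⌋₊ ∪ B.biUnion (fun m ↦ Finset.Icc ⌈m * T⌉₊ ⌊m * T + T⌋₊)) ∪
      (Finset.Icc 1 X).biUnion (fun m ↦ Finset.Icc ⌈m * T - η * T⌉₊ ⌊m * T + η * T⌋₊) := by
    intro n hn
    rw [Finset.mem_filter, Finset.mem_Icc] at hn
    obtain ⟨⟨hn1, hn2⟩, hnot⟩ := hn
    have hnX : (n : ℝ) ≤ X * T := (Nat.le_floor_iff hXT0).mp hn2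
    rw [Finset.mem_union, Finset.mem_union]
    by_cases hnT : (n : ℝ) < T
    · left; left
      rw [Finset.mem_Icc]
      exact ⟨hn1, Nat.le_floor hnT.le⟩
    · push Not at hnT
      set m : ℕ := ⌊(n : ℝ) / T⌋₊ with hm
      have hnT0 : (0 : ℝ) ≤ n / T := by positivity
      have hm1 : (m : ℝ) * T ≤ n := by
        have h1 : (m : ℝ) ≤ n / T := Nat.floor_le hnT0
        rwa [le_div_iff₀ hT0] at h1
      have hm2 : (n : ℝ) < (m + 1) * T := by
        have h1 : (n : ℝ) / T < m + 1 := Nat.lt_floor_add_one _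
        rwa [div_lt_iff₀ hT0] at h1
      have hm1' : 1 ≤ m := by
        rw [hm]
        apply Nat.le_floor
        rw [le_div_iff₀ hT0]
        push_cast
        linarith
      have hmX : m ≤ X := by
        have h1 : (m : ℝ) * T ≤ X * T := le_trans hm1 hnX
        have h2 : (m : ℝ) ≤ X := le_of_mul_le_mul_right h1 hT0
        exact_mod_cast h2
      by_cases hmB : m ∈ B
      · left; right
        rw [Finset.mem_biUnion]
        refine ⟨m, hmB, ?_⟩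
        rw [Finset.mem_Icc]
        refine ⟨Nat.ceil_le.mpr hm1, Nat.le_floor ?_⟩
        linarith
      · right
        rw [Finset.mem_biUnion]
        by_cases hlo : m * T + η * T ≤ n
        · have hhi : (m + 1) * T - η * T ≤ n := by
            by_contra hc
            push Not at hc
            exact hnot ⟨m, hm1', hmX, hmB, hlo, hc⟩
          have hηT : η * T ≤ 1 / 2 * T := by gcongr
          have hmX1 : m + 1 ≤ X := by
            by_contra hc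
            have hc' : X = m := by omega
            rw [hc'] at hnX
            nlinarith
          refine ⟨m + 1, Finset.mem_Icc.mpr ⟨by omega, hmX1⟩, ?_⟩
          rw [Finset.mem_Icc]
          refine ⟨Nat.ceil_le.mpr ?_, Nat.le_floor ?_⟩
          · push_cast; exact hhi
          · push_cast
            have : 0 ≤ η * T := by positivity
            linarith
        · push Not at hlo
          refine ⟨m, Finset.mem_Icc.mpr ⟨hm1', hmX⟩, ?_⟩
          rw [Finset.mem_Icc]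
          refine ⟨Nat.ceil_le.mpr ?_, Nat.le_floor hlo.le⟩
          have : 0 ≤ η * T := by positivity
          linarith
  have h1 := le_trans (Finset.card_le_card hcover) (le_trans (Finset.card_union_le _ _)
    (Nat.add_le_add_right (Finset.card_union_le _ _) _))
  have h2 : ((Finset.Icc 1 ⌊T⌋₊).card : ℝ) ≤ T := by
    rw [Nat.card_Icc]
    simp only [Nat.add_sub_cancel]
    exact Nat.floor_le hT0.le
  have h3 : ((B.biUnion (fun m ↦ Finset.Icc ⌈m * T⌉₊ ⌊m * T + T⌋₊)).card : ℝ) ≤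
      B.card * (T + 1) := by
    have h5 : ((B.biUnion (fun m : ℕ ↦ Finset.Icc ⌈m * T⌉₊ ⌊m * T + T⌋₊)).card : ℝ) ≤
        ∑ m ∈ B, ((Finset.Icc ⌈m * T⌉₊ ⌊m * T + T⌋₊).card : ℝ) := by
      exact_mod_cast Finset.card_biUnion_le
    refine le_trans h5 ?_
    have h6 : ∑ m ∈ B, ((Finset.Icc ⌈m * T⌉₊ ⌊m * T + T⌋₊).card : ℝ) ≤ ∑ _m ∈ B, (T + 1) := by
      apply Finset.sum_le_sum
      intro m _
      exact card_block (m * T) T (by positivity) hT0.le
    refine le_trans h6 ?_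
    rw [Finset.sum_const, nsmul_eq_mul]
  have h4 : (((Finset.Icc 1 X).biUnion
      (fun m ↦ Finset.Icc ⌈m * T - η * T⌉₊ ⌊m * T + η * T⌋₊)).card : ℝ) ≤
      X * (2 * (η * T) + 1) := by
    have h5 : (((Finset.Icc 1 X).biUnion
      (fun m : ℕ ↦ Finset.Icc ⌈m * T - η * T⌉₊ ⌊m * T + η * T⌋₊)).card : ℝ) ≤
      ∑ m ∈ Finset.Icc 1 X, ((Finset.Icc ⌈m * T - η * T⌉₊ ⌊m * T + η * T⌋₊).card : ℝ) := by
      exact_mod_cast Finset.card_biUnion_le
    refine le_trans h5 ?_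
    have h6 : ∑ m ∈ Finset.Icc 1 X, ((Finset.Icc ⌈m * T - η * T⌉₊ ⌊m * T + η * T⌋₊).card : ℝ)
        ≤ ∑ _m ∈ Finset.Icc 1 X, (2 * (η * T) + 1) := by
      apply Finset.sum_le_sum
      intro m hm
      rw [Finset.mem_Icc] at hm
      have hm2 : (1 : ℝ) ≤ m := by exact_mod_cast hm.1
      exact card_near5 (m * T) (η * T) (by nlinarith) (by positivity)
    refine le_trans h6 ?_
    rw [Finset.sum_const, Nat.card_Icc, nsmul_eq_mul]
    simp
  have h9 : (((Finset.Icc 1 ⌊X * T⌋₊).filter (fun n : ℕ ↦ ¬ ∃ m : ℕ, 1 ≤ m ∧ m ≤ X ∧ m ∉ B ∧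
      m * T + η * T ≤ n ∧ (n : ℝ) < (m + 1) * T - η * T)).card : ℝ) ≤
      ((Finset.Icc 1 ⌊T⌋₊).card : ℝ) +
      ((B.biUnion (fun m ↦ Finset.Icc ⌈m * T⌉₊ ⌊m * T + T⌋₊)).card : ℝ) +
      (((Finset.Icc 1 X).biUnion
      (fun m ↦ Finset.Icc ⌈m * T - η * T⌉₊ ⌊m * T + η * T⌋₊)).card : ℝ) := by
    exact_mod_cast h1
  linarith

end Pool.Agent.Lib.MP_62a313_nt
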