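import Mathlib
import Pool.Agent.Lib.MP_62a313_nt.Arith

set_option autoImplicit false

open Nbb67e70a

namespace Pool.Agent.Lib.MP_62a313_nt

/-- If `p` divides the numerator of `H n`, it divides that of `H (n / p)`. -/
theorem parent {p : ℕ} [hp : Fact p.Prime] {n : ℕ} (h : padicNorm p (H n) < 1) :
    padicNorm p (H (n / p)) < 1 := by
  have h1 := norm_sub (p := p) 1 n
  rw [pow_one, pow_one] at h1
  have h2 : padicNorm p ((p : ℚ) * H n) < 1 := by
    rw [padicNorm.mul]
    have h3 : padicNorm p (p : ℚ) ≤ 1 := padicNorm.of_nat p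
    calc padicNorm p (p : ℚ) * padicNorm p (H n) ≤ 1 * padicNorm p (H n) :=
          mul_le_mul_of_nonneg_right h3 (padicNorm.nonneg _)
      _ < 1 := by rw [one_mul]; exact h
  have h3 : H (n / p) = (p : ℚ) * H n + -((p : ℚ) * H n - H (n / p)) := by ring
  rw [h3]
  refine lt_of_le_of_lt padicNorm.nonarchimedean (max_lt h2 ?_)
  rw [padicNorm.neg]
  exact h1

theorem H_succ (n : ℕ) : H (n + 1) = H n + 1 / ((n + 1 : ℕ) : ℚ) := by
  unfold H
  rw [Finset.sum_Icc_succ_top (by omega)]

/-- the harmonic numbers `H (p m)` and `H (p m + 1)` are not both divisible by `p`. -/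
theorem not_both {p : ℕ} [hp : Fact p.Prime] {m : ℕ} (h : padicNorm p (H (p * m)) < 1)
    (h' : padicNorm p (H (p * m + 1)) < 1) : False := by
  have h1 : (1 : ℚ) / ((p * m + 1 : ℕ) : ℚ) = H (p * m + 1) + -(H (p * m)) := by
    rw [H_succ]; ring
  have h2 : padicNorm p ((1 : ℚ) / ((p * m + 1 : ℕ) : ℚ)) < 1 := by
    rw [h1]
    refine lt_of_le_of_lt padicNorm.nonarchimedean (max_lt h' ?_)
    rw [padicNorm.neg]
    exact h
  have h3 : padicNorm p ((p * m + 1 : ℕ) : ℚ) = 1 := by
    rw [padicNorm.nat_eq_one_iff]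
    intro hd
    have : p ∣ 1 := (Nat.dvd_add_right (dvd_mul_right p m)).mp hd
    exact hp.out.one_lt.ne' (Nat.dvd_one.mp this)
  rw [padicNorm.div, padicNorm.one, h3] at h2
  norm_num at h2

open Classical in
/-- the zeros of `H` modulo `p` below `p ^ k`, including `0`. -/
noncomputable def Z (p k : ℕ) : Finset ℕ :=
  (Finset.range (p ^ k)).filter (fun n ↦ padicNorm p (H n) < 1)

theorem card_Z (p : ℕ) [hp : Fact p.Prime] (k : ℕ) : (Z p k).card ≤ (p - 1) ^ k := by
  classical
  induction k with
  | zero =>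
    unfold Z
    refine le_trans (Finset.card_filter_le _ _) ?_
    simp
  | succ k ih =>
    have hmaps : ∀ n ∈ Z p (k + 1), n / p ∈ Z p k := by
      intro n hn
      unfold Z at hn ⊢
      rw [Finset.mem_filter, Finset.mem_range] at hn ⊢
      refine ⟨?_, parent hn.2⟩
      rw [Nat.div_lt_iff_lt_mul hp.out.pos]
      rw [← pow_succ]
      exact hn.1
    have hfib : ∀ m ∈ Z p k, ((Z p (k + 1)).filter (fun n ↦ n / p = m)).card ≤ p - 1 := by
      intro m _
      by_cases h0 : padicNorm p (H (p * m)) < 1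
      · have hsub : (Z p (k + 1)).filter (fun n ↦ n / p = m) ⊆
            (Finset.Ico (p * m) (p * m + p)).erase (p * m + 1) := by
          intro n hn
          rw [Finset.mem_filter] at hn
          unfold Z at hn
          rw [Finset.mem_filter, Finset.mem_range] at hn
          rw [Finset.mem_erase, Finset.mem_Ico]
          refine ⟨?_, ?_, ?_⟩
          · rintro rfl
            exact not_both h0 hn.1.2
          · have := Nat.div_mul_le_self n p
            rw [hn.2] at this
            rw [mul_comm]; exact this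
          · have := Nat.lt_div_mul_add (a := n) hp.out.pos
            rw [hn.2] at this
            rw [mul_comm]; exact this
        refine le_trans (Finset.card_le_card hsub) ?_
        rw [Finset.card_erase_of_mem]
        · simp
        · rw [Finset.mem_Ico]
          have := hp.out.one_lt
          omega
      · have hsub : (Z p (k + 1)).filter (fun n ↦ n / p = m) ⊆
            (Finset.Ico (p * m) (p * m + p)).erase (p * m) := by
          intro n hn
          rw [Finset.mem_filter] at hn
          unfold Z at hn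
          rw [Finset.mem_filter, Finset.mem_range] at hn
          rw [Finset.mem_erase, Finset.mem_Ico]
          refine ⟨?_, ?_, ?_⟩
          · rintro rfl
            exact h0 hn.1.2
          · have := Nat.div_mul_le_self n p
            rw [hn.2] at this
            rw [mul_comm]; exact this
          · have := Nat.lt_div_mul_add (a := n) hp.out.pos
            rw [hn.2] at this
            rw [mul_comm]; exact this
        refine le_trans (Finset.card_le_card hsub) ?_
        rw [Finset.card_erase_of_mem]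
        · simp
        · rw [Finset.mem_Ico]
          have := hp.out.pos
          omega
    calc (Z p (k + 1)).card ≤ (p - 1) * (Z p k).card :=
          Finset.card_le_mul_card_image_of_maps_to hmaps (p - 1) hfib
      _ ≤ (p - 1) * (p - 1) ^ k := Nat.mul_le_mul_left _ ih
      _ = (p - 1) ^ (k + 1) := by ring

open Classical in
/-- The set of `n` such that `p` divides the numerator of `H n` has density zero. -/
theorem zeros_density (p : ℕ) [hp : Fact p.Prime] {ε : ℝ} (hε : 0 < ε) :
    ∃ X₀ : ℕ, ∀ X : ℕ, X₀ ≤ X →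
      (((Finset.Icc 1 X).filter (fun n ↦ padicNorm p (H n) < 1)).card : ℝ) ≤ ε * X := by
  have hp0 : (0 : ℝ) < p := by exact_mod_cast hp.out.pos
  have hp1 : (1 : ℝ) < p := by exact_mod_cast hp.out.one_lt
  have hr0 : (0 : ℝ) ≤ ((p : ℝ) - 1) / p := div_nonneg (by linarith) hp0.le
  have hr1 : ((p : ℝ) - 1) / p < 1 := by rw [div_lt_one hp0]; linarith
  obtain ⟨k, hk⟩ := exists_pow_lt_of_lt_one (show (0 : ℝ) < ε / p by positivity) hr1
  refine ⟨p ^ k, ?_⟩
  intro X hX
  set l := Nat.log p X with hl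
  have hXpos : X ≠ 0 := by
    have := pow_pos hp.out.pos k
    omega
  have hkl : k ≤ l := Nat.le_log_of_pow_le hp.out.one_lt hX
  have h1 : X < p ^ (l + 1) := Nat.lt_pow_succ_log_self hp.out.one_lt X
  have h2 : p ^ l ≤ X := Nat.pow_log_le_self p hXpos
  have hsub : (Finset.Icc 1 X).filter (fun n ↦ padicNorm p (H n) < 1) ⊆ Z p (l + 1) := by
    intro n hn
    unfold Z
    rw [Finset.mem_filter, Finset.mem_Icc] at hn
    rw [Finset.mem_filter, Finset.mem_range]
    exact ⟨lt_of_le_of_lt hn.1.2 h1, hn.2⟩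
  have h3 : (((Finset.Icc 1 X).filter (fun n ↦ padicNorm p (H n) < 1)).card : ℝ) ≤
      ((p : ℝ) - 1) ^ (l + 1) := by
    have h4 := le_trans (Finset.card_le_card hsub) (card_Z p (l + 1))
    have h5 : (((p - 1 : ℕ) : ℝ)) = (p : ℝ) - 1 := by
      rw [Nat.cast_sub hp.out.pos]; simp
    calc (((Finset.Icc 1 X).filter (fun n ↦ padicNorm p (H n) < 1)).card : ℝ)
        ≤ (((p - 1) ^ (l + 1) : ℕ) : ℝ) := by exact_mod_cast h4
      _ = ((p : ℝ) - 1) ^ (l + 1) := by rw [Nat.cast_pow, h5]
  refine le_trans h3 ?_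
  have h6 : (((p : ℝ) - 1) / p) ^ l ≤ (((p : ℝ) - 1) / p) ^ k :=
    pow_le_pow_of_le_one hr0 hr1.le hkl
  have h7 : ((p : ℝ) - 1) ^ (l + 1) = (((p : ℝ) - 1) / p) ^ l * (((p : ℝ) - 1) * (p : ℝ) ^ l) := by
    rw [div_pow, pow_succ]
    field_simp
  rw [h7]
  have h8 : (p : ℝ) ^ l ≤ X := by exact_mod_cast h2
  have h9 : ((p : ℝ) - 1) * (p : ℝ) ^ l ≤ p * X := by
    apply mul_le_mul (by linarith) h8 (by positivity) hp0.le
  calc (((p : ℝ) - 1) / p) ^ l * (((p : ℝ) - 1) * (p : ℝ) ^ l) ≤ (ε / p) * (p * X) := by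
        apply mul_le_mul (le_trans h6 hk.le) h9 _ (by positivity)
        have : 0 ≤ (p : ℝ) - 1 := by linarith
        positivity
    _ = ε * X := by field_simp

open Classical in
/-- The same for a finite set of primes. -/
theorem zeros_density_finset (F : Finset ℕ) (hF : ∀ p ∈ F, p.Prime) {ε : ℝ} (hε : 0 < ε) :
    ∃ X₀ : ℕ, ∀ X : ℕ, X₀ ≤ X →
      (((Finset.Icc 1 X).filter (fun n ↦ ∃ p ∈ F, padicNorm p (H n) < 1)).card : ℝ) ≤ ε * X := by
  induction F using Finset.induction_on generalizing ε with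
  | empty => exact ⟨0, fun X _ ↦ by simp; positivity⟩
  | insert q F hq ih =>
    obtain ⟨X₁, h1⟩ := ih (fun p hp ↦ hF p (Finset.mem_insert_of_mem hp)) (half_pos hε)
    have : Fact q.Prime := ⟨hF q (Finset.mem_insert_self q F)⟩
    obtain ⟨X₂, h2⟩ := zeros_density q (half_pos hε)
    refine ⟨max X₁ X₂, ?_⟩
    intro X hX
    have h3 := h1 X (le_trans (le_max_left _ _) hX)
    have h4 := h2 X (le_trans (le_max_right _ _) hX)
    have hsub : (Finset.Icc 1 X).filter (fun n ↦ ∃ p ∈ insert q F, padicNorm p (H n) < 1) ⊆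
        (Finset.Icc 1 X).filter (fun n ↦ ∃ p ∈ F, padicNorm p (H n) < 1) ∪
        (Finset.Icc 1 X).filter (fun n ↦ padicNorm q (H n) < 1) := by
      intro n hn
      rw [Finset.mem_filter] at hn
      obtain ⟨hn1, p, hp, hpn⟩ := hn
      rw [Finset.mem_union, Finset.mem_filter, Finset.mem_filter]
      rw [Finset.mem_insert] at hp
      rcases hp with rfl | hp
      · exact Or.inr ⟨hn1, hpn⟩
      · exact Or.inl ⟨hn1, p, hp, hpn⟩
    have h5 := le_trans (Finset.card_le_card hsub) (Finset.card_union_le _ _)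
    have h6 : (((Finset.Icc 1 X).filter (fun n ↦ ∃ p ∈ insert q F, padicNorm p (H n) < 1)).card : ℝ) ≤
        (((Finset.Icc 1 X).filter (fun n ↦ ∃ p ∈ F, padicNorm p (H n) < 1)).card : ℝ) +
        (((Finset.Icc 1 X).filter (fun n ↦ padicNorm q (H n) < 1)).card : ℝ) := by
      exact_mod_cast h5
    linarith

end Pool.Agent.Lib.MP_62a313_nt
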