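import Mathlib
import Pool.Agent.Lib.MP_62a313_nt.Zeros5
import Pool.Agent.Lib.MP_62a313_nt.Blocks5

set_option autoImplicit false

open Nbb67e70a

namespace Pool.Agent.Lib.MP_62a313_nt

/-- Good scales occur in every interval `[y, K y]`. -/
theorem scale (F : Finset ℕ) (hF : ∀ p ∈ F, p.Prime) (X : ℕ) {η : ℝ} (hη0 : 0 < η)
    (hη1 : η ≤ 1 / 2) : ∃ K : ℝ, 0 ≤ K ∧ ∀ y : ℝ, 3 ≤ y → ∃ T : ℝ, y ≤ T ∧ T ≤ K * y ∧
      ∀ p ∈ F, ∀ n m : ℕ, m ≤ X → m * T + η * T ≤ n → (n : ℝ) < (m + 1) * T - η * T →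
        ∃ i : ℕ, 1 ≤ i ∧ n / p ^ i = m := by
  have hlogpos : ∀ p ∈ F, 0 < Real.log p := fun p hp ↦
    Real.log_pos (by exact_mod_cast (hF p hp).one_lt)
  have hX0 : (0 : ℝ) ≤ X := Nat.cast_nonneg X
  set κ : ℝ := η / (2 * (X + 1)) with hκ
  have hκ0 : 0 < κ := by positivity
  have hκX : 2 * κ * (X + 1) ≤ η := by rw [hκ]; apply le_of_eq; field_simp
  have hκ1 : κ ≤ 1 / 2 := by
    rw [hκ, div_le_iff₀ (by positivity)]
    nlinarith
  set Λ : ℝ := 1 + ∑ p ∈ F, Real.log p with hΛ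
  have hsum0 : 0 ≤ ∑ p ∈ F, Real.log p := Finset.sum_nonneg (fun p hp ↦ (hlogpos p hp).le)
  have hΛ0 : 0 < Λ := by linarith
  have hlogle : ∀ p ∈ F, Real.log p ≤ Λ := by
    intro p hp
    have := Finset.single_le_sum (f := fun p : ℕ ↦ Real.log p) (fun i hi ↦ (hlogpos i hi).le) hp
    linarith
  obtain ⟨R, hR⟩ := recurrence F (fun p ↦ 1 / Real.log p) (δ := κ / Λ) (by positivity)
  refine ⟨Real.exp (R + 1), (Real.exp_pos _).le, ?_⟩
  intro y hy
  have hy0 : (0 : ℝ) < y := by linarith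
  obtain ⟨s, hs1, hs2, hs3⟩ := hR ⌈Real.log y⌉
  have hlow : Real.log y ≤ s := le_trans (Int.le_ceil _) (by exact_mod_cast hs1)
  have hupp : (s : ℝ) ≤ Real.log y + (R + 1) := by
    have h1 : (s : ℝ) ≤ (⌈Real.log y⌉ : ℝ) + R := by exact_mod_cast hs2
    have h2 : (⌈Real.log y⌉ : ℝ) < Real.log y + 1 := Int.ceil_lt_add_one _
    linarith
  have hs_pos : (1 : ℝ) ≤ s := by
    have h1 : (1 : ℝ) ≤ Real.log y := by
      rw [Real.le_log_iff_exp_le hy0]
      have := Real.exp_one_lt_d9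
      linarith
    linarith
  refine ⟨Real.exp s, ?_, ?_, ?_⟩
  · rw [← Real.log_le_iff_le_exp hy0]; exact hlow
  · calc Real.exp s ≤ Real.exp (Real.log y + (R + 1)) := Real.exp_le_exp.mpr hupp
      _ = Real.exp (R + 1) * y := by
        rw [Real.exp_add, Real.exp_log hy0]; ring
  · intro p hp n m hm h1 h2
    have hlp := hlogpos p hp
    have hrec := hs3 p hp
    set j : ℤ := round ((s : ℝ) * (1 / Real.log p)) with hj
    have hrec2 : |(s : ℝ) - j * Real.log p| < κ := by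
      have h1 : (s : ℝ) - j * Real.log p = ((s : ℝ) * (1 / Real.log p) - j) * Real.log p := by
        field_simp
      rw [h1, abs_mul, abs_of_pos hlp]
      calc |(s : ℝ) * (1 / Real.log p) - j| * Real.log p
          < κ / Λ * Real.log p := mul_lt_mul_of_pos_right hrec hlp
        _ ≤ κ / Λ * Λ := mul_le_mul_of_nonneg_left (hlogle p hp) (by positivity)
        _ = κ := by field_simp
    exact transfer (hF p hp) hκ0 hκ1 hκX hrec2 (by linarith) hm h1 h2

theorem many (r : ℕ) : ∀ ε : ℝ, 0 < ε → ∀ X₀ : ℕ, ∃ X : ℕ, X₀ ≤ X ∧ 1 ≤ X ∧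
    (((Finset.Icc 1 X).filter (fun m ↦ (D m).card < r)).card : ℝ) ≤ ε * X := by
  induction r with
  | zero =>
    intro ε hε X₀
    refine ⟨max X₀ 1, le_max_left _ _, le_max_right _ _, ?_⟩
    simp only [Nat.not_lt_zero, Finset.filter_false, Finset.card_empty, Nat.cast_zero]
    positivity
  | succ r ih =>
    classical
    intro ε hε X₀
    obtain ⟨K₀, hK₀⟩ := exists_nat_ge (16 / ε)
    obtain ⟨X, hX1, hX2, hX3⟩ := ih (ε / 16) (by positivity) (max X₀ K₀)
    have hXX₀ : X₀ ≤ X := le_trans (le_max_left _ _) hX1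
    have hXK₀ : K₀ ≤ X := le_trans (le_max_right _ _) hX1
    have hX16 : 16 ≤ ε * X := by
      have h1 : 16 / ε ≤ X := le_trans hK₀ (by exact_mod_cast hXK₀)
      rw [div_le_iff₀ hε] at h1
      linarith
    have hXr : (1 : ℝ) ≤ X := by exact_mod_cast hX2
    set F : Finset ℕ := (Finset.Icc 1 X).biUnion D with hF
    have hFp : ∀ p ∈ F, p.Prime := by
      intro p hp
      rw [hF, Finset.mem_biUnion] at hp
      obtain ⟨m, _, hm⟩ := hp
      exact (mem_D.mp hm).1
    obtain ⟨X₁, hX₁⟩ := zeros_density_finset F hFp (show 0 < ε / 8 by positivity)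
    set η : ℝ := min (ε / 32) (1 / 2) with hη
    have hη0 : 0 < η := lt_min (by positivity) (by norm_num)
    have hη1 : η ≤ ε / 32 := min_le_left _ _
    have hη2 : η ≤ 1 / 2 := min_le_right _ _
    obtain ⟨K, _, hK⟩ := scale F hFp X hη0 hη2
    obtain ⟨T, hT1, _, hT3⟩ := hK (3 + 16 / ε + X₀ + X₁) (by
      have : 0 < 16 / ε := by positivity
      have h1 : (0 : ℝ) ≤ X₀ := Nat.cast_nonneg _
      have h2 : (0 : ℝ) ≤ X₁ := Nat.cast_nonneg _
      linarith)
    have hpos16 : 0 < 16 / ε := by positivity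
    have hX₀0 : (0 : ℝ) ≤ X₀ := Nat.cast_nonneg _
    have hX₁0 : (0 : ℝ) ≤ X₁ := Nat.cast_nonneg _
    have hT3' : (3 : ℝ) ≤ T := by linarith
    have hT16 : 16 ≤ ε * T := by
      have h1 : 16 / ε ≤ T := by linarith
      rw [div_le_iff₀ hε] at h1
      linarith
    have hTX₀ : (X₀ : ℝ) ≤ T - 1 := by linarith
    have hTX₁ : (X₁ : ℝ) ≤ T - 1 := by linarith
    have hXT : T ≤ X * T := by nlinarith
    set N : ℕ := ⌊(X : ℝ) * T⌋₊ with hN
    have hNlow : X * T - 1 < (N : ℝ) := by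
      have := Nat.lt_floor_add_one ((X : ℝ) * T)
      linarith
    have hNupp : (N : ℝ) ≤ X * T := Nat.floor_le (by positivity)
    have hNX₀ : X₀ ≤ N := by
      have : (X₀ : ℝ) < N := by linarith
      exact_mod_cast this.le
    have hNX₁ : X₁ ≤ N := by
      have : (X₁ : ℝ) < N := by linarith
      exact_mod_cast this.le
    have hN1 : 1 ≤ N := by
      have : (1 : ℝ) < N := by linarith
      exact_mod_cast this.le
    refine ⟨N, hNX₀, hN1, ?_⟩
    set B : Finset ℕ := (Finset.Icc 1 X).filter (fun m ↦ (D m).card < r) with hB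
    have hcover : (Finset.Icc 1 N).filter (fun n ↦ (D n).card < r + 1) ⊆
        ((Finset.Icc 1 N).filter (fun n : ℕ ↦ ¬ ∃ m : ℕ, 1 ≤ m ∧ m ≤ X ∧ m ∉ B ∧
          m * T + η * T ≤ n ∧ (n : ℝ) < (m + 1) * T - η * T) ∪
        (Finset.Icc 1 N).filter (fun n ↦ ∃ p ∈ F, padicNorm p (H n) < 1)) ∪ {1} := by
      intro n hn
      rw [Finset.mem_filter] at hn
      obtain ⟨hn1, hn2⟩ := hn
      rw [Finset.mem_union, Finset.mem_union, Finset.mem_filter, Finset.mem_filter,
        Finset.mem_singleton]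
      by_contra hcon
      push Not at hcon
      obtain ⟨⟨hc1, hc2⟩, hc3⟩ := hcon
      obtain ⟨m, hm1, hm2, hm3, hm4, hm5⟩ := hc1 hn1
      have hc2' := hc2 hn1
      rw [Finset.mem_Icc] at hn1
      have hn2' : 2 ≤ n := by omega
      have hDm : r ≤ (D m).card := by
        by_contra hc
        push Not at hc
        apply hm3
        rw [hB, Finset.mem_filter, Finset.mem_Icc]
        exact ⟨⟨hm1, hm2⟩, hc⟩
      have hDF : D m ⊆ F := by
        rw [hF]
        exact Finset.subset_biUnion_of_mem D (Finset.mem_Icc.mpr ⟨hm1, hm2⟩)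
      obtain ⟨q, hq1, hq2⟩ := exists_prime hn2'
      have hqF : q ∉ F := by
        intro hc
        exact absurd hq2 (not_lt.mpr (hc2' q hc))
      have hsub : insert q (D m) ⊆ D n := by
        intro p hp
        rw [Finset.mem_insert] at hp
        rcases hp with rfl | hp
        · exact D_zero (by omega) hq1 hq2
        · obtain ⟨i, _, hi⟩ := hT3 p (hDF hp) n m hm2 hm4 hm5
          exact D_mono hi hp
      have h1 := Finset.card_le_card hsub
      rw [Finset.card_insert_of_notMem (fun hc ↦ hqF (hDF hc))] at h1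
      omega
    have h1 := le_trans (Finset.card_le_card hcover) (le_trans (Finset.card_union_le _ _)
      (Nat.add_le_add_right (Finset.card_union_le _ _) _))
    rw [Finset.card_singleton] at h1
    have h2 := count X B (T := T) (η := η) (by linarith) hη0 hη2
    rw [← hN] at h2
    have h3 := hX₁ N hNX₁
    have h4 : (((Finset.Icc 1 N).filter (fun n ↦ (D n).card < r + 1)).card : ℝ) ≤
        (((Finset.Icc 1 N).filter (fun n : ℕ ↦ ¬ ∃ m : ℕ, 1 ≤ m ∧ m ≤ X ∧ m ∉ B ∧
          m * T + η * T ≤ n ∧ (n : ℝ) < (m + 1) * T - η * T)).card : ℝ) +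
        (((Finset.Icc 1 N).filter (fun n ↦ ∃ p ∈ F, padicNorm p (H n) < 1)).card : ℝ) + 1 := by
      exact_mod_cast h1
    have hXT0 : 0 ≤ (X : ℝ) * T := by positivity
    have e1 : T ≤ ε * (X * T) / 16 := by nlinarith
    have e2 : (B.card : ℝ) * (T + 1) ≤ ε * (X * T) / 8 := by
      calc (B.card : ℝ) * (T + 1) ≤ (ε / 16 * X) * (2 * T) := by
            apply mul_le_mul hX3 (by linarith) (by linarith) (by positivity)
        _ = ε * (X * T) / 8 := by ring
    have e3 : X * (2 * (η * T)) ≤ ε * (X * T) / 16 := by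
      have : η * (X * T) ≤ ε / 32 * (X * T) := by gcongr
      linarith
    have e4 : (X : ℝ) ≤ ε * (X * T) / 16 := by nlinarith
    have e5 : 1 ≤ ε * (X * T) / 16 := by nlinarith
    have e6 : ε / 8 * (N : ℝ) ≤ ε * (X * T) / 8 := by
      have : ε / 8 * (N : ℝ) ≤ ε / 8 * (X * T) := by gcongr
      linarith
    have e7 : X * T / 2 ≤ (N : ℝ) := by linarith
    have e8 : ε * (X * T / 2) ≤ ε * N := by gcongr
    have e9 : X * (2 * (η * T) + 1) = X * (2 * (η * T)) + X := by ring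
    rw [e9] at h2
    linarith

end Pool.Agent.Lib.MP_62a313_nt
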