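import Mathlib
import Pool.Agent.Lib.MP_62a313_nt.Zeros5
import Pool.Agent.Lib.MP_62a313_nt.Blocks5

set_option autoImplicit false

open Nbb67e70a

namespace Pool.Agent.Lib.MP_62a313_nt

/-- Dirichlet's simultaneous approximation theorem. -/
theorem dirichlet (F : Finset ℕ) (c : ℕ → ℝ) (Q : ℕ) (hQ : 1 ≤ Q) :
    ∃ t : ℕ, 1 ≤ t ∧ t ≤ Q ^ F.card ∧ ∀ p ∈ F, ∃ j : ℤ, |(t : ℝ) * c p - j| < 1 / Q := by
  classical
  have hQ0 : (0 : ℝ) < Q := by exact_mod_cast hQ
  let f : ℕ → (F → ℕ) := fun t p ↦ ⌊(Q : ℝ) * Int.fract ((t : ℝ) * c p)⌋₊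
  have hmaps : ∀ t ∈ Finset.range (Q ^ F.card + 1), f t ∈ Fintype.piFinset (fun _ : F ↦ Finset.range Q) := by
    intro t _
    rw [Fintype.mem_piFinset]
    intro p
    rw [Finset.mem_range]
    have h1 : Int.fract ((t : ℝ) * c p) < 1 := Int.fract_lt_one _
    have h0 : 0 ≤ Int.fract ((t : ℝ) * c p) := Int.fract_nonneg _
    have h2 : (Q : ℝ) * Int.fract ((t : ℝ) * c p) < Q := by nlinarith
    exact (Nat.floor_lt (by positivity)).mpr h2
  have hcard : (Fintype.piFinset (fun _ : F ↦ Finset.range Q)).card < (Finset.range (Q ^ F.card + 1)).card := by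
    rw [Fintype.card_piFinset, Finset.card_range]
    simp
  obtain ⟨t₁, ht₁, t₂, ht₂, hne, heq⟩ :=
    Finset.exists_ne_map_eq_of_card_lt_of_maps_to hcard hmaps
  have key : ∀ t₁ t₂ : ℕ, t₁ < t₂ → t₂ < Q ^ F.card + 1 → f t₁ = f t₂ →
      ∃ t : ℕ, 1 ≤ t ∧ t ≤ Q ^ F.card ∧ ∀ p ∈ F, ∃ j : ℤ, |(t : ℝ) * c p - j| < 1 / Q := by
    intro t₁ t₂ h12 h2 hf
    refine ⟨t₂ - t₁, by omega, by omega, ?_⟩
    intro p hp
    refine ⟨⌊(t₂ : ℝ) * c p⌋ - ⌊(t₁ : ℝ) * c p⌋, ?_⟩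
    have h3 := congrFun hf ⟨p, hp⟩
    simp only [f] at h3
    have e1 : ((t₂ - t₁ : ℕ) : ℝ) * c p - ((⌊(t₂ : ℝ) * c p⌋ - ⌊(t₁ : ℝ) * c p⌋ : ℤ) : ℝ) =
        Int.fract ((t₂ : ℝ) * c p) - Int.fract ((t₁ : ℝ) * c p) := by
      rw [Nat.cast_sub h12.le]
      push_cast
      unfold Int.fract
      ring
    rw [e1]
    have a0 : 0 ≤ (Q : ℝ) * Int.fract ((t₁ : ℝ) * c p) := mul_nonneg hQ0.le (Int.fract_nonneg _)
    have b0 : 0 ≤ (Q : ℝ) * Int.fract ((t₂ : ℝ) * c p) := mul_nonneg hQ0.le (Int.fract_nonneg _)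
    have a1 := Nat.floor_le a0
    have b1 := Nat.floor_le b0
    have a2 := Nat.lt_floor_add_one ((Q : ℝ) * Int.fract ((t₁ : ℝ) * c p))
    have b2 := Nat.lt_floor_add_one ((Q : ℝ) * Int.fract ((t₂ : ℝ) * c p))
    rw [h3] at a1 a2
    rw [lt_div_iff₀ hQ0]
    have e2 : |Int.fract ((t₂ : ℝ) * c p) - Int.fract ((t₁ : ℝ) * c p)| * Q =
        |(Q : ℝ) * Int.fract ((t₂ : ℝ) * c p) - (Q : ℝ) * Int.fract ((t₁ : ℝ) * c p)| := by
      rw [← mul_sub, abs_mul, abs_of_pos hQ0]; ring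
    rw [e2, abs_lt]
    constructor <;> linarith
  rw [Finset.mem_range] at ht₁ ht₂
  rcases lt_or_gt_of_ne hne with h | h
  · exact key t₁ t₂ h ht₂ heq
  · exact key t₂ t₁ h ht₁ heq.symm

theorem L_le (m : ℕ) : L m ≤ m ^ m := by
  have h1 : L m ∣ m.factorial := by
    unfold L
    apply Finset.lcm_dvd
    intro k hk
    rw [Finset.mem_Icc] at hk
    exact Nat.dvd_factorial hk.1 hk.2
  exact le_trans (Nat.le_of_dvd (Nat.factorial_pos m) h1) (Nat.factorial_le_pow m)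

theorem a_le (m : ℕ) : a m ≤ m ^ (m + 1) := by
  unfold a
  calc ∑ k ∈ Finset.Icc 1 m, L m / k ≤ ∑ _k ∈ Finset.Icc 1 m, L m :=
        Finset.sum_le_sum (fun k _ ↦ Nat.div_le_self _ _)
    _ = m * L m := by rw [Finset.sum_const, Nat.card_Icc, smul_eq_mul]; simp
    _ ≤ m * m ^ m := Nat.mul_le_mul_left _ (L_le m)
    _ = m ^ (m + 1) := by ring

theorem prime_le {m p : ℕ} (hm : 1 ≤ m) (hp : p ∈ (H m).num.natAbs.primeFactors) :
    p ≤ m ^ (m + 1) := by
  have hL : ((L m : ℤ)) ≠ 0 := by exact_mod_cast (L_pos m).ne'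
  have h1 : H m = Rat.divInt (a m : ℤ) (L m : ℤ) := by
    rw [Rat.divInt_eq_div]
    push_cast
    rw [a_eq]
    have : (L m : ℚ) ≠ 0 := by exact_mod_cast (L_pos m).ne'
    field_simp
  have h2 : (H m).num ∣ (a m : ℤ) := by
    rw [h1]
    exact Rat.num_dvd _ hL
  have ha : 0 < a m := by
    have h3 : (0 : ℚ) < a m := by
      rw [a_eq]
      have : (0 : ℚ) < L m := by exact_mod_cast L_pos m
      have := H_pos hm
      positivity
    exact_mod_cast h3
  have h3 : (H m).num.natAbs ∣ a m := by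
    have := Int.natAbs_dvd_natAbs.mpr h2
    simpa using this
  have h4 : p ∣ a m := dvd_trans (Nat.mem_primeFactors.mp hp).2.1 h3
  exact le_trans (Nat.le_of_dvd ha h4) (a_le m)

set_option maxHeartbeats 1000000 in
/-- Quantitative form: infinitely often the number of `n ≤ N` with `gcd (a n) (L n) = 1` is
`O(N logloglog N / loglog N)`. -/
theorem rate (M : ℕ) : ∃ N : ℕ, M ≤ N ∧
    (((Finset.Icc 1 N).filter (fun n ↦ Nat.gcd (a n) (L n) = 1)).card : ℝ) ≤
      128 * (N : ℝ) * (Real.log (Real.log (Real.log N)) / Real.log (Real.log N)) := by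
  classical
  -- the number of blocks
  obtain ⟨x, hx⟩ : ∃ x : ℕ, x = M + 20 := ⟨_, rfl⟩
  have hx20 : (20 : ℝ) ≤ x := by rw [hx]; push_cast; have : (0 : ℝ) ≤ M := Nat.cast_nonneg M; linarith
  have hx0 : (0 : ℝ) < x := by linarith
  have hMx : (M : ℝ) ≤ x := by rw [hx]; push_cast; linarith
  have hq : ∀ m : ℕ, ∃ p : ℕ, 2 ≤ m → (p.Prime ∧ padicNorm p (H m) < 1) := by
    intro m
    by_cases hm : 2 ≤ m
    · obtain ⟨p, hp⟩ := exists_prime hm
      exact ⟨p, fun _ ↦ hp⟩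
    · exact ⟨0, fun h ↦ absurd h hm⟩
  choose q hq using hq
  obtain ⟨F, hF⟩ : ∃ F : Finset ℕ, F = (Finset.Icc 2 x).image q := ⟨_, rfl⟩
  have hFcard : F.card ≤ x := by
    rw [hF]
    refine le_trans Finset.card_image_le ?_
    rw [Nat.card_Icc]; omega
  have hFp : ∀ p ∈ F, p.Prime := by
    intro p hp
    rw [hF, Finset.mem_image] at hp
    obtain ⟨m, hm, rfl⟩ := hp
    rw [Finset.mem_Icc] at hm
    exact (hq m hm.1).1
  have hlogpos : ∀ p ∈ F, 0 < Real.log p := fun p hp ↦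
    Real.log_pos (by exact_mod_cast (hFp p hp).one_lt)
  have hlogle : ∀ p ∈ F, Real.log p ≤ x * (x + 1) := by
    intro p hp
    rw [hF, Finset.mem_image] at hp
    obtain ⟨m, hm, rfl⟩ := hp
    rw [Finset.mem_Icc] at hm
    have h1 := prime_le (m := m) (by omega) (num_of_norm (hq m hm.1).1 (by omega) (hq m hm.1).2)
    have hm0 : (0 : ℝ) < m := by
      have : 0 < m := by omega
      exact_mod_cast this
    have hmx : (m : ℝ) ≤ x := by exact_mod_cast hm.2
    have h2 : Real.log (q m) ≤ Real.log (m ^ (m + 1)) := by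
      apply Real.log_le_log
      · exact_mod_cast (hq m hm.1).1.pos
      · exact_mod_cast h1
    rw [Real.log_pow] at h2
    have h3 : Real.log m ≤ m := by
      have := Real.log_le_sub_one_of_pos hm0
      linarith
    have h4 : 0 ≤ Real.log m := Real.log_natCast_nonneg m
    calc Real.log (q m) ≤ ((m + 1 : ℕ) : ℝ) * Real.log m := h2
      _ = (m + 1) * Real.log m := by push_cast; ring
      _ ≤ (x + 1) * x := by
        apply mul_le_mul (by linarith) (by linarith) h4 (by linarith)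
      _ = x * (x + 1) := by ring
  obtain ⟨Q, hQ⟩ : ∃ Q : ℕ, Q = 4 * x ^ 2 * (x + 1) ^ 2 := ⟨_, rfl⟩
  have hQr : (Q : ℝ) = 4 * (x : ℝ) ^ 2 * ((x : ℝ) + 1) ^ 2 := by rw [hQ]; push_cast; ring
  have hQ1 : 1 ≤ Q := by
    have h1 : 0 < x := by omega
    have h2 : 0 < Q := by rw [hQ]; positivity
    omega
  have hQ0 : (0 : ℝ) < Q := by exact_mod_cast hQ1
  -- the time
  obtain ⟨s₀, hs₀⟩ : ∃ s₀ : ℝ, s₀ = (x : ℝ) := ⟨_, rfl⟩
  obtain ⟨t, ht1, ht2, ht3⟩ := dirichlet F (fun p ↦ s₀ * (1 / Real.log p)) Q hQ1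
  have ht1' : (1 : ℝ) ≤ t := by exact_mod_cast ht1
  obtain ⟨s, hs⟩ : ∃ s : ℝ, s = t * s₀ := ⟨_, rfl⟩
  have hsx : (x : ℝ) ≤ s := by rw [hs, hs₀]; nlinarith
  obtain ⟨T, hT⟩ : ∃ T : ℝ, T = Real.exp s := ⟨_, rfl⟩
  have hTx : (x : ℝ) + 1 ≤ T := by
    have := Real.add_one_le_exp s
    rw [← hT] at this
    linarith
  have hT0 : (0 : ℝ) < T := by linarith
  obtain ⟨κ, hκ⟩ : ∃ κ : ℝ, κ = 1 / (4 * x * (x + 1)) := ⟨_, rfl⟩
  obtain ⟨η, hη⟩ : ∃ η : ℝ, η = 1 / (2 * x) := ⟨_, rfl⟩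
  have hη0 : 0 < η := by rw [hη]; positivity
  have hη1 : η ≤ 1 / 2 := by
    rw [hη, div_le_div_iff₀ (by positivity) (by norm_num)]
    linarith
  have hκ0 : 0 < κ := by rw [hκ]; positivity
  have hκ1 : κ ≤ 1 / 2 := by
    rw [hκ, div_le_div_iff₀ (by positivity) (by norm_num)]
    nlinarith
  have hκη : 2 * κ * (x + 1) ≤ η := by
    rw [hκ, hη]
    apply le_of_eq
    field_simp
    norm_num
  have hrec : ∀ p ∈ F, ∃ j : ℤ, |s - j * Real.log p| < κ := by
    intro p hp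
    obtain ⟨j, hj⟩ := ht3 p hp
    refine ⟨j, ?_⟩
    have hlp := hlogpos p hp
    have h1 : s - j * Real.log p = ((t : ℝ) * (s₀ * (1 / Real.log p)) - j) * Real.log p := by
      rw [hs]
      field_simp
    rw [h1, abs_mul, abs_of_pos hlp]
    calc |(t : ℝ) * (s₀ * (1 / Real.log p)) - j| * Real.log p
        < 1 / Q * Real.log p := mul_lt_mul_of_pos_right hj hlp
      _ ≤ 1 / Q * (x * (x + 1)) := mul_le_mul_of_nonneg_left (hlogle p hp) (by positivity)
      _ = κ := by rw [hQr, hκ]; field_simp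
  obtain ⟨N, hN⟩ : ∃ N : ℕ, N = ⌊(x : ℝ) * T⌋₊ := ⟨_, rfl⟩
  have hxT0 : 0 ≤ (x : ℝ) * T := by positivity
  have hNlow : x * T - 1 < (N : ℝ) := by
    have := Nat.lt_floor_add_one ((x : ℝ) * T)
    rw [← hN] at this
    linarith
  have hNupp : (N : ℝ) ≤ x * T := by rw [hN]; exact Nat.floor_le hxT0
  have hNhalf : x * T / 2 ≤ (N : ℝ) := by nlinarith
  have hTN : T ≤ N := by nlinarith
  have hN0 : (0 : ℝ) < N := by linarith
  refine ⟨N, ?_, ?_⟩
  · have : (M : ℝ) ≤ N := by linarith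
    exact_mod_cast this
  · -- counting
    have hcover : (Finset.Icc 1 N).filter (fun n ↦ Nat.gcd (a n) (L n) = 1) ⊆
        (Finset.Icc 1 N).filter (fun n : ℕ ↦ ¬ ∃ m : ℕ, 1 ≤ m ∧ m ≤ x ∧ m ∉ ({1} : Finset ℕ) ∧
          m * T + η * T ≤ n ∧ (n : ℝ) < (m + 1) * T - η * T) := by
      intro n hn
      rw [Finset.mem_filter] at hn ⊢
      obtain ⟨hn1, hn2⟩ := hn
      refine ⟨hn1, ?_⟩
      rintro ⟨m, hm1, hm2, hm3, hm4, hm5⟩
      rw [Finset.mem_singleton] at hm3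
      have hm2' : 2 ≤ m := by omega
      have hqF : q m ∈ F := by
        rw [hF, Finset.mem_image]
        exact ⟨m, Finset.mem_Icc.mpr ⟨hm2', hm2⟩, rfl⟩
      obtain ⟨j, hj⟩ := hrec (q m) hqF
      rw [hT] at hm4 hm5
      obtain ⟨i, hi1, hi2⟩ := transfer (X := x) (hFp _ hqF) hκ0 hκ1 hκη hj (by linarith) hm2 hm4 hm5
      have h1 := D_gcd hi1 hi2 (D_zero hm1 (hq m hm2').1 (hq m hm2').2)
      rw [hn2] at h1
      simp at h1
    have h1 := Finset.card_le_card hcover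
    have h2 := count x {1} (T := T) (η := η) (by linarith) hη0 hη1
    rw [← hN, Finset.card_singleton] at h2
    have h3 : (((Finset.Icc 1 N).filter (fun n ↦ Nat.gcd (a n) (L n) = 1)).card : ℝ) ≤
        T + ((1 : ℕ) : ℝ) * (T + 1) + x * (2 * (η * T) + 1) := le_trans (by exact_mod_cast h1) h2
    have h4 : x * (2 * (η * T) + 1) = T + x := by
      rw [hη]; field_simp
    have h5 : (((Finset.Icc 1 N).filter (fun n ↦ Nat.gcd (a n) (L n) = 1)).card : ℝ) ≤ 4 * T := by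
      rw [h4] at h3
      push_cast at h3
      linarith
    have h6 : 4 * T ≤ 8 * N / x := by
      rw [le_div_iff₀ hx0]
      linarith
    -- the size of N
    have hlx0 : 0 < Real.log x := Real.log_pos (by linarith)
    have hlogx : Real.exp 1 ≤ Real.log x := by
      have h7 : Real.exp 1 < 2.7182818286 := Real.exp_one_lt_d9
      have h8 : (2.7725 : ℝ) ≤ Real.log 16 := by
        rw [show (16 : ℝ) = 2 ^ 4 by norm_num, Real.log_pow]
        have := Real.log_two_gt_d9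
        push_cast
        linarith
      have h9 : Real.log 16 ≤ Real.log x := Real.log_le_log (by norm_num) (by linarith)
      linarith
    have hlogN1 : (x : ℝ) ≤ Real.log N := by
      calc (x : ℝ) ≤ s := hsx
        _ = Real.log T := by rw [hT, Real.log_exp]
        _ ≤ Real.log N := Real.log_le_log hT0 hTN
    obtain ⟨u, hu⟩ : ∃ u : ℝ, u = Real.log (Real.log N) := ⟨_, rfl⟩
    rw [← hu]
    have hu1 : Real.exp 1 ≤ u := by rw [hu]; exact le_trans hlogx (Real.log_le_log hx0 hlogN1)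
    have hu0 : 0 < u := lt_of_lt_of_le (Real.exp_pos 1) hu1
    have hlogN0 : 0 < Real.log N := by linarith
    -- upper bound
    have hQx : 3 * (x : ℝ) ≤ Q := by
      rw [hQr]
      have h7 : 3 * (x : ℝ) ≤ 4 * (x : ℝ) ^ 2 * 1 := by nlinarith
      have h8 : (1 : ℝ) ≤ ((x : ℝ) + 1) ^ 2 := by nlinarith
      calc 3 * (x : ℝ) ≤ 4 * (x : ℝ) ^ 2 * 1 := h7
        _ ≤ 4 * (x : ℝ) ^ 2 * ((x : ℝ) + 1) ^ 2 := by gcongr
    have hQge1 : (1 : ℝ) ≤ Q := by exact_mod_cast hQ1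
    have ht4 : (t : ℝ) ≤ (Q : ℝ) ^ x := by
      calc (t : ℝ) ≤ ((Q ^ F.card : ℕ) : ℝ) := by exact_mod_cast ht2
        _ = (Q : ℝ) ^ F.card := by push_cast; ring
        _ ≤ (Q : ℝ) ^ x := pow_le_pow_right₀ hQge1 hFcard
    have hQx1 : (1 : ℝ) ≤ (Q : ℝ) ^ x := one_le_pow₀ hQge1
    have hlogN2 : Real.log N ≤ (Q : ℝ) ^ (x + 1) := by
      have h7 : Real.log N ≤ Real.log (x * T) := Real.log_le_log hN0 hNupp
      rw [Real.log_mul hx0.ne' hT0.ne', hT, Real.log_exp] at h7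
      have h8 : Real.log x ≤ x := by
        have := Real.log_le_sub_one_of_pos hx0
        linarith
      have h9 : s ≤ x * (Q : ℝ) ^ x := by
        rw [hs, hs₀]
        calc (t : ℝ) * x ≤ (Q : ℝ) ^ x * x := by gcongr
          _ = x * (Q : ℝ) ^ x := by ring
      calc Real.log N ≤ x + x * (Q : ℝ) ^ x := by linarith
        _ ≤ x * (Q : ℝ) ^ x + x * (Q : ℝ) ^ x := by nlinarith
        _ ≤ 3 * x * (Q : ℝ) ^ x := by nlinarith
        _ ≤ Q * (Q : ℝ) ^ x := by gcongr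
        _ = (Q : ℝ) ^ (x + 1) := by ring
    have hlogQ : Real.log Q ≤ 8 * Real.log x := by
      have h7 : (Q : ℝ) ≤ (x : ℝ) ^ 8 := by
        rw [hQr]
        have h8 : (x : ℝ) + 1 ≤ 2 * x := by linarith
        calc 4 * (x : ℝ) ^ 2 * ((x : ℝ) + 1) ^ 2 ≤ 4 * (x : ℝ) ^ 2 * (2 * x) ^ 2 := by gcongr
          _ = 16 * (x : ℝ) ^ 4 := by ring
          _ ≤ (x : ℝ) ^ 4 * (x : ℝ) ^ 4 := by
            have h9 : (16 : ℝ) ≤ (x : ℝ) ^ 4 := by
              calc (16 : ℝ) ≤ 20 ^ 4 := by norm_num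
                _ ≤ (x : ℝ) ^ 4 := by gcongr
            gcongr
          _ = (x : ℝ) ^ 8 := by ring
      calc Real.log Q ≤ Real.log ((x : ℝ) ^ 8) := Real.log_le_log hQ0 h7
        _ = 8 * Real.log x := by rw [Real.log_pow]; push_cast; ring
    have hu2 : u ≤ 16 * x * Real.log x := by
      calc u ≤ Real.log ((Q : ℝ) ^ (x + 1)) := by rw [hu]; exact Real.log_le_log hlogN0 hlogN2
        _ = (x + 1) * Real.log Q := by rw [Real.log_pow]; push_cast; ring
        _ ≤ (x + 1) * (8 * Real.log x) := by gcongr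
        _ ≤ (2 * x) * (8 * Real.log x) := by
            apply mul_le_mul_of_nonneg_right (by linarith) (by linarith)
        _ = 16 * x * Real.log x := by ring
    have hanti := Real.log_div_self_antitoneOn (by simpa using hu1)
      (by simpa using le_trans hu1 hu2) hu2
    simp only at hanti
    have hU : 1 / (16 * (x : ℝ)) ≤ Real.log (16 * x * Real.log x) / (16 * x * Real.log x) := by
      rw [div_le_div_iff₀ (by positivity) (by positivity)]
      have h7 : Real.log x ≤ Real.log (16 * x * Real.log x) := by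
        apply Real.log_le_log hx0
        have h8 : (1 : ℝ) ≤ Real.log x := by
          have := Real.add_one_le_exp (1 : ℝ)
          linarith
        nlinarith
      calc 1 * (16 * x * Real.log x) = Real.log x * (16 * x) := by ring
        _ ≤ Real.log (16 * x * Real.log x) * (16 * x) := by gcongr
    have hfin : 8 / (x : ℝ) ≤ 128 * (Real.log u / u) := by
      have h7 : 1 / (16 * (x : ℝ)) ≤ Real.log u / u := le_trans hU hanti
      have h8 : 8 / (x : ℝ) = 128 * (1 / (16 * (x : ℝ))) := by field_simp; norm_num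
      rw [h8]
      gcongr
    calc (((Finset.Icc 1 N).filter (fun n ↦ Nat.gcd (a n) (L n) = 1)).card : ℝ) ≤ 8 * N / x :=
          le_trans h5 h6
      _ = N * (8 / x) := by ring
      _ ≤ N * (128 * (Real.log u / u)) := by gcongr
      _ = 128 * N * (Real.log u / u) := by ring

end Pool.Agent.Lib.MP_62a313_nt
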